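import Pool.Agent.Q234.BF.Main

/-!
# The two-copy map of the random butterfly on `Λ²` has an eigenvalue of size `≥ (3/4)^K / 3`

`Phi K` is the map `Φ_n`, `n = 2 ^ K`, of the problem (`Pool.Agent.Q234.BF.Defs`): the entrywise
average of `Λ²(W)^{⊗2} Y (Λ²(W)^{⊗2})†` over the random unitary butterfly `W = butterfly K ω`,
whose angles `ω` are independent and uniform on `[0, 2π)` (`law K`).  Here `Λ²(W)` is the matrix
of `2 × 2` minors of `W`, `PP M` the set of pairs `a < b`.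
-/

set_option autoImplicit false

namespace Pool.Agent.Results.MP_93fab9_mp.SlowMode

open Pool.Agent.Q234.BF

/-- For every `K ≥ 2` the map `Φ_n`, `n = 2 ^ K`, has an eigenvalue `μ` with
`(3/4)^K / 3 ≤ |μ| ≤ (3/4)^K < 1`; consequently it is false that for some `C, K₀` and all
`K ≥ K₀` the fixed-point space of `Φ_n` has dimension `3` and all other eigenvalues are at most
`C / n` in absolute value. -/
theorem result :
    (∀ K : ℕ, 2 ≤ K → ∃ μ : ℂ, (1 / 3) * (3 / 4) ^ K ≤ ‖μ‖ ∧ ‖μ‖ ≤ (3 / 4) ^ K ∧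
      ∃ Y, Y ≠ 0 ∧ Phi K Y = μ • Y) ∧
    ¬ ∃ C : ℝ, 0 < C ∧ ∃ K₀ : ℕ, ∀ K : ℕ, K₀ ≤ K →
      Module.finrank ℂ (Submodule.span ℂ {Y | Phi K Y = Y}) = 3 ∧
      ∀ μ : ℂ, μ ≠ 1 → (∃ Y, Y ≠ 0 ∧ Phi K Y = μ • Y) → ‖μ‖ ≤ C / 2 ^ K := by
  refine ⟨fun K hK => exists_eigen hK, ?_⟩
  rintro ⟨C, hC, K₀, h⟩
  obtain ⟨N, hN⟩ := pow_unbounded_of_one_lt (3 * C) (by norm_num : (1 : ℝ) < 3 / 2)
  set K := max N (max K₀ 2) with hKdef
  have hK2 : 2 ≤ K := le_trans (le_max_right _ _) (le_max_right _ _)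
  have hK0 : K₀ ≤ K := le_trans (le_max_left _ _) (le_max_right _ _)
  have hKN : N ≤ K := le_max_left _ _
  obtain ⟨μ, h1, h2, hY⟩ := exists_eigen hK2
  have hμ : μ ≠ 1 := by
    rintro rfl
    rw [norm_one] at h2
    have : (3/4 : ℝ) ^ K < 1 := pow_lt_one₀ (by norm_num) (by norm_num) (by omega)
    linarith
  have h3 := (h K hK0).2 μ hμ hY
  have h4 : (3 / 2 : ℝ) ^ N ≤ (3 / 2) ^ K := pow_le_pow_right₀ (by norm_num) hKN
  have h5 : (1 / 3 : ℝ) * (3 / 4) ^ K ≤ C / 2 ^ K := h1.trans h3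
  rw [le_div_iff₀ (by positivity), mul_assoc, ← mul_pow] at h5
  norm_num at h5
  linarith

end Pool.Agent.Results.MP_93fab9_mp.SlowMode
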